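import Mathlib
import Pool.Agent.Helper16.CubicTransfer

set_option autoImplicit false

/-!
Project TR (MP_ffd2c1_ag): a smooth cubic fourfold containing a plane for which the discriminant
sextic of the projection from the plane is reducible is rational, or has an Eckardt point on the
plane.  Definitions shared by all pieces.
-/

namespace Pool.Agent.Helper29.TR

open MvPolynomial Module Pool.Agent.Helper16

/-- polynomial functions on the six-dimensional space in adapted coordinates -/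
abbrev RI := MvPolynomial I6 ℂ

/-- standard basis vector of the six-dimensional space -/
noncomputable def E (i : I6) : I6 → ℂ := Pi.single i 1

/-- the polynomial `T(x, x, x)` -/
noncomputable def poly (c : Cub (I6 → ℂ)) : RI := c.ext RI X X X

/-- `x` is a generic point of the cubic `c` with coordinates in the field `K` -/
def Gen (c : Cub (I6 → ℂ)) {K : Type} [Field K] [Algebra ℂ K] (x : I6 → K) : Prop :=
  c.ext K x x x = 0 ∧ ∀ (n : ℕ) (G : RI), G.IsHomogeneous n → aeval x G = 0 → poly c ∣ G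

/-- a birational parametrisation of the cubic by affine four-space: the polynomial map `Q` and the
rational functions `A i / B i` are mutually inverse -/
structure Param (c : Cub (I6 → ℂ)) where
  Q : I6 → MvPolynomial (Fin 4) ℂ
  A : Fin 4 → RI
  B : Fin 4 → RI
  d : Fin 4 → ℕ
  hQ : c.ext (MvPolynomial (Fin 4) ℂ) Q Q Q = 0
  hA : ∀ i, (A i).IsHomogeneous (d i)
  hB : ∀ i, (B i).IsHomogeneous (d i)
  hB0 : ∀ i, ¬ poly c ∣ B i
  h1 : ∀ (K : Type) [Field K] [Algebra ℂ K] (x : I6 → K), Gen c x →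
    ∃ τ : K, τ ≠ 0 ∧ ∀ m, aeval (fun i => aeval x (A i) / aeval x (B i)) (Q m) = τ * x m
  h2 : ∀ i, aeval Q (A i) = X i * aeval Q (B i)

/-- the cubic form is rational -/
def Rat {V : Type*} [AddCommGroup V] [Module ℂ V] (c : Cub V) : Prop :=
  ∃ e : (I6 → ℂ) ≃ₗ[ℂ] V, Nonempty (Param (c.comap e))

theorem Rat.of_comap {V V' : Type*} [AddCommGroup V] [Module ℂ V] [AddCommGroup V'] [Module ℂ V']
    {c : Cub V} (e : V' ≃ₗ[ℂ] V) (h : Rat (c.comap e)) : Rat c := by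
  obtain ⟨e', h'⟩ := h
  exact ⟨e'.trans e, h'⟩

theorem Rat.of_param {c : Cub (I6 → ℂ)} (h : Nonempty (Param c)) : Rat c :=
  ⟨LinearEquiv.refl ℂ _, h⟩

/-- an Eckardt point of the cubic -/
def IsEck {V : Type*} [AddCommGroup V] [Module ℂ V] (c : Cub V) (p : V) : Prop :=
  p ≠ 0 ∧ ∀ v, c.T p p v = 0 → c.T p v v = 0

/-- the matrix of the net of conics -/
noncomputable def Am (c : Cub (I6 → ℂ)) {S : Type*} [CommRing S] [Algebra ℂ S] (z : Fin 3 → S) :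
    Matrix (Fin 3) (Fin 3) S :=
  Matrix.of fun i j => c.ext S (iY S (Pi.single i 1)) (iY S (Pi.single j 1)) (iZ S z)

/-- skew 3 by 3 matrix of a vector -/
def crs {S : Type*} [CommRing S] (k : Fin 3 → S) : Matrix (Fin 3) (Fin 3) S :=
  !![0, -k 2, k 1; k 2, 0, -k 0; -k 1, k 0, 0]

/-- Normal form for the case of a conic in the discriminant.  The base plane has the basis
`a, b, d` (the vectors `E (.inl 0), E (.inl 1), E (.inl 2)`), the complement has the basis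
`E (.inr 0), E (.inr 1), E (.inr 2)` and the cubic is
`3 (z₂ y₀² - 2 z₁ y₀ y₁ + z₀ y₁²) + G (w, z)` where `y₀, y₁, w, z₀, z₁, z₂` are the coordinates. -/
structure CN (c : Cub (I6 → ℂ)) : Prop where
  iso : c.Iso P0
  aa : ∀ x, c.T (E (.inl 0)) (E (.inl 0)) x = x (.inr 2)
  ab : ∀ x, c.T (E (.inl 0)) (E (.inl 1)) x = - x (.inr 1)
  bb : ∀ x, c.T (E (.inl 1)) (E (.inl 1)) x = x (.inr 0)
  a0 : ∀ u v : I6 → ℂ, u (.inl 0) = 0 → u (.inl 1) = 0 → v (.inl 0) = 0 → v (.inl 1) = 0 →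
    c.T (E (.inl 0)) u v = 0
  b0 : ∀ u v : I6 → ℂ, u (.inl 0) = 0 → u (.inl 1) = 0 → v (.inl 0) = 0 → v (.inl 1) = 0 →
    c.T (E (.inl 1)) u v = 0

/-- `T(d, d, z)` -/
noncomputable def al (c : Cub (I6 → ℂ)) (z : Fin 3 → ℂ) : ℂ :=
  c.T (E (.inl 2)) (E (.inl 2)) (iZ ℂ z)

/-- `T(d, z, z)` -/
noncomputable def be (c : Cub (I6 → ℂ)) (z : Fin 3 → ℂ) : ℂ :=
  c.T (E (.inl 2)) (iZ ℂ z) (iZ ℂ z)

/-- `T(z, z, z)` -/
noncomputable def ga (c : Cub (I6 → ℂ)) (z : Fin 3 → ℂ) : ℂ :=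
  c.T (iZ ℂ z) (iZ ℂ z) (iZ ℂ z)

/-- the residual quartic, as a function -/
noncomputable def dl (c : Cub (I6 → ℂ)) (z : Fin 3 → ℂ) : ℂ :=
  al c z * ga c z / 3 - be c z ^ 2 / 4

/-- the standard parametrisation of the conic -/
def nu (t : ℂ) : Fin 3 → ℂ := ![1, t, t ^ 2]

/-- the standard conic -/
noncomputable def kap : R3 := X 0 * X 2 - X 1 ^ 2

section pfaffian

variable {S : Type*} [CommRing S]

/-- sub-Pfaffian with four indices -/
def pf4 (A : Matrix (Fin 6) (Fin 6) S) (k l m n : Fin 6) : S :=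
  A k l * A m n - A k m * A l n + A k n * A l m

/-- the Pfaffian of a 6 by 6 alternating matrix -/
def pf6 (A : Matrix (Fin 6) (Fin 6) S) : S :=
  A 0 1 * pf4 A 2 3 4 5 - A 0 2 * pf4 A 1 3 4 5 + A 0 3 * pf4 A 1 2 4 5 -
    A 0 4 * pf4 A 1 2 3 5 + A 0 5 * pf4 A 1 2 3 4

/-- the Pfaffian adjugate: `A * pst A = pf6 A • 1` for an alternating matrix `A` -/
def pst (A : Matrix (Fin 6) (Fin 6) S) : Matrix (Fin 6) (Fin 6) S :=
  !![0, -pf4 A 2 3 4 5, pf4 A 1 3 4 5, -pf4 A 1 2 4 5, pf4 A 1 2 3 5, -pf4 A 1 2 3 4;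
     pf4 A 2 3 4 5, 0, -pf4 A 0 3 4 5, pf4 A 0 2 4 5, -pf4 A 0 2 3 5, pf4 A 0 2 3 4;
     -pf4 A 1 3 4 5, pf4 A 0 3 4 5, 0, -pf4 A 0 1 4 5, pf4 A 0 1 3 5, -pf4 A 0 1 3 4;
     pf4 A 1 2 4 5, -pf4 A 0 2 4 5, pf4 A 0 1 4 5, 0, -pf4 A 0 1 2 5, pf4 A 0 1 2 4;
     -pf4 A 1 2 3 5, pf4 A 0 2 3 5, -pf4 A 0 1 3 5, pf4 A 0 1 2 5, 0, -pf4 A 0 1 2 3;
     pf4 A 1 2 3 4, -pf4 A 0 2 3 4, pf4 A 0 1 3 4, -pf4 A 0 1 2 4, pf4 A 0 1 2 3, 0]

/-- alternating matrices -/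
def Alt (A : Matrix (Fin 6) (Fin 6) S) : Prop := (∀ i, A i i = 0) ∧ ∀ i j, A j i = -A i j

end pfaffian

/-- a presentation of the cubic as the Pfaffian of a 6 by 6 alternating matrix of linear forms -/
structure PfD (c : Cub (I6 → ℂ)) where
  M : (I6 → ℂ) →ₗ[ℂ] Matrix (Fin 6) (Fin 6) ℂ
  alt : ∀ x, Alt (M x)
  κ : ℂ
  hκ : κ ≠ 0
  pf : ∀ x, pf6 (M x) = κ * c.T x x x

/-- the matrix over an algebra -/
noncomputable def PfD.ext {c : Cub (I6 → ℂ)} (d : PfD c) {S : Type*} [CommRing S] [Algebra ℂ S]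
    (x : I6 → S) : Matrix (Fin 6) (Fin 6) S :=
  Matrix.of fun i j => ∑ m, algebraMap ℂ S (d.M (E m) i j) * x m

/-- the matrix `N(u)` with `N(u) x = M(x) u`; its columns are numbered by `Fin 3 ⊕ Fin 3` through
`finSumFinEquiv` -/
noncomputable def PfD.N {c : Cub (I6 → ℂ)} (d : PfD c) {S : Type*} [CommRing S] [Algebra ℂ S]
    (u : Fin 6 → S) : Matrix (Fin 6) (Fin 6) S :=
  Matrix.of fun i j => ∑ k, algebraMap ℂ S (d.M (E (finSumFinEquiv.symm j)) i k) * u k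

end Pool.Agent.Helper29.TR
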