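import Mathlib
import Pool.Agent.Helper29.TR.St.ConNode
import Pool.Agent.Helper29.TR.St.ConDisc
import Pool.Agent.Helper29.TR.St.ConSec
import Pool.Agent.Helper29.TR.St.Tsen
import Pool.Agent.Helper29.TR.St.SecHom
import Pool.Agent.Helper16.CubicQB

set_option autoImplicit false

/-!
The case of a two-dimensional splitting summand: rationality of the normal form.
-/

namespace Pool.Agent.Helper29.TR

open MvPolynomial Module Pool.Agent.Helper16

/-- a cubic in normal form is rational -/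
theorem rat4_of_CN {c : Cub (I6 → ℂ)} (h : CN c) :
    ∃ e : (I6 → ℂ) ≃ₗ[ℂ] (I6 → ℂ), (c.comap e).Rat4 := by
  obtain ⟨e1, h1, h0⟩ := CN_node h
  obtain ⟨ξ, η, hξ, hξη, hη⟩ := CN_split h0
  obtain ⟨α, β, γ, hα, hβ, hγ, hαe, hβe, hγe, -⟩ := CN_polys (c.comap e1)
  have hne : 4 * α * γ ≠ 3 * β ^ 2 := by
    intro heq
    obtain ⟨t, ht⟩ := CN_dl h1
    apply ht
    have h2 := congrArg (Polynomial.eval t) heq
    simp only [Polynomial.eval_mul, Polynomial.eval_pow, Polynomial.eval_ofNat, hαe, hβe, hγe] at h2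
    rw [dl]
    linear_combination (1 / 12) * h2
  obtain ⟨m, w, s, hs, heq⟩ := tsen α β γ hα hβ hγ hne
  obtain ⟨v, hv3, hv⟩ := CN_section h1 hξ hξη hη m w s hs (fun t => by
    have h2 := congrArg (Polynomial.eval t) heq
    simp only [Polynomial.eval_mul, Polynomial.eval_pow, Polynomial.eval_add,
      Polynomial.eval_ofNat, hαe, hβe, hγe, Polynomial.eval_zero] at h2
    exact h2)
  obtain ⟨N, v', hv1, hv2, hv30, hv0⟩ := section_hom _ v hv3 hv
  have hR : ((c.comap e1).comap (gE ξ η)).Rat4 := by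
    refine Cub.rat4_of_section (CN_iso h1 hξ hξη hη) (D := N) v' (fun i => ?_) hv0 ?_
    · refine Fin.lastCases ?_ (fun a => ?_) i
      · exact hv2
      · have : (![1, 1, 1, 0] : Fin 4 → ℕ) a.castSucc = 1 := by fin_cases a <;> rfl
        rw [this]; exact hv1 a
    · intro h2
      exact hv30 (by rw [h2]; rfl)
  exact ⟨(gE ξ η).trans e1, hR⟩

end Pool.Agent.Helper29.TR
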