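import Pool.Agent.Helper29.TR.St.ThetaS
import Pool.Agent.Helper29.TR.St.PfRep
import Pool.Agent.Helper29.TR.St.PfMove
import Pool.Agent.Helper29.TR.St.PfParam

set_option autoImplicit false

/-!
The case of a three-dimensional splitting summand.
-/

namespace Pool.Agent.Helper29.TR

open MvPolynomial Module Pool.Agent.Helper16

/-- the cubic polynomial of the complement -/
noncomputable def gaP (c : Cub (I6 → ℂ)) : R3 := C (1 / 3) * c.ext R3 (iZ R3 X) (iZ R3 X) (iZ R3 X)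

theorem eval_gaP (c : Cub (I6 → ℂ)) (z : Fin 3 → ℂ) :
    eval z (gaP c) = 1 / 3 * c.T (iZ ℂ z) (iZ ℂ z) (iZ ℂ z) := by
  have e4 : (fun i => aeval z (iZ R3 (X : Fin 3 → R3) i)) = iZ ℂ z := by
    funext i; rcases i with i | i <;> simp
  rw [gaP, ← aeval_eq_eval, map_mul, Cub.map_ext, e4, Cub.ext_complex]
  simp

theorem gaP_hom (c : Cub (I6 → ℂ)) : (gaP c).IsHomogeneous 3 := by
  apply isHomogeneous_of_eval
  intro a z
  rw [eval_gaP, eval_gaP, map_smul]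
  simp only [map_smul, LinearMap.smul_apply, smul_eq_mul]
  ring

/-- the case of a split cubic -/
theorem rat_of_split {c : Cub (I6 → ℂ)} (hP : c.Iso P0)
    (hs : ∀ y z z', c.T (iY ℂ y) (iZ ℂ z) (iZ ℂ z') = 0) :
    (∃ A B : Submodule ℂ (I6 → ℂ), c.Pl A ∧ c.Pl B ∧ A ⊓ B = ⊥) ∨ c.Rat4 := by
  obtain ⟨K, s, hK⟩ := theta_surj hP (gaP_hom c)
  simp only [eval_gaP] at hK
  by_cases hs0 : s = 0
  · left
    subst hs0
    refine plane_of_split hP hs K fun z => ?_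
    linear_combination 3 * hK z
  · right
    obtain ⟨d⟩ := pf_of_split hP hs K s hs0 fun z => by linear_combination 3 * hK z
    obtain ⟨d', x0, hx0, h0, h5, hu⟩ := exists_special d
    exact rat4_of_special d' hx0 h0 h5 hu

/-- transfer of disjoint planes -/
theorem planes_of_comap {V V' : Type*} [AddCommGroup V] [Module ℂ V] [AddCommGroup V']
    [Module ℂ V'] (c : Cub V) (e : V' ≃ₗ[ℂ] V)
    (h : ∃ A B : Submodule ℂ V', (c.comap e).Pl A ∧ (c.comap e).Pl B ∧ A ⊓ B = ⊥) :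
    ∃ A B : Submodule ℂ V, c.Pl A ∧ c.Pl B ∧ A ⊓ B = ⊥ := by
  obtain ⟨A, B, hA, hB, hAB⟩ := h
  have key : ∀ W : Submodule ℂ V', (W.map (e : V' →ₗ[ℂ] V)).comap (e : V' →ₗ[ℂ] V) = W :=
    fun W => Submodule.comap_map_eq_of_injective e.injective W
  refine ⟨A.map (e : V' →ₗ[ℂ] V), B.map (e : V' →ₗ[ℂ] V), ?_, ?_, ?_⟩
  · rw [← Cub.pl_comap c e, key]; exact hA
  · rw [← Cub.pl_comap c e, key]; exact hB
  · rw [← Submodule.map_inf _ e.injective, hAB, Submodule.map_bot]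

/-- the case of a three-dimensional summand -/
theorem rat_of_dim3 {c : Cub (I6 → ℂ)} {K V' : Submodule ℂ (I6 → ℂ)} (hP : c.Iso P0)
    (hKV : IsCompl K V') (hK : K ≤ P0) (hK3 : finrank ℂ K = 3)
    (h : ∀ u ∈ K, ∀ v ∈ V', ∀ w ∈ V', c.T u v w = 0) :
    (∃ A B : Submodule ℂ (I6 → ℂ), c.Pl A ∧ c.Pl B ∧ A ⊓ B = ⊥) ∨
      ∃ e : (I6 → ℂ) ≃ₗ[ℂ] (I6 → ℂ), (c.comap e).Rat4 := by
  have hKP : K = P0 := Submodule.eq_of_le_of_finrank_eq hK (by rw [hK3, finrank_P0])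
  have hV3 : finrank ℂ V' = 3 := by
    have h1 := Submodule.finrank_add_eq_of_isCompl hKV
    rw [finrank_I6] at h1; omega
  obtain ⟨w, hwK, hwV⟩ := Cub.exists_basis hKV hK3 hV3
  set e : (I6 → ℂ) ≃ₗ[ℂ] (I6 → ℂ) := w.equivFun.symm with he
  have hex : ∀ x : I6 → ℂ, e x = ∑ i, x (.inl i) • w (.inl i) + ∑ i, x (.inr i) • w (.inr i) := by
    intro x
    rw [he, Basis.equivFun_symm_apply, Fintype.sum_sum_type]
  have heY : ∀ y, e (iY ℂ y) ∈ K := by
    intro y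
    rw [hex]
    simp only [iY_inl, iY_inr, zero_smul, Finset.sum_const_zero, add_zero]
    exact Submodule.sum_mem _ fun i _ => K.smul_mem _ (hwK i)
  have heZ : ∀ z, e (iZ ℂ z) ∈ V' := by
    intro z
    rw [hex]
    simp only [iZ_inl, iZ_inr, zero_smul, Finset.sum_const_zero, zero_add]
    exact Submodule.sum_mem _ fun i _ => V'.smul_mem _ (hwV i)
  have hP' : (c.comap e).Iso P0 := by
    intro x hx
    rw [eq_iY_of_mem hx, Cub.comap_apply]
    exact hP _ (hK (heY _))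
  rcases rat_of_split hP' (fun y z z' => by
    rw [Cub.comap_apply]
    exact h _ (heY y) _ (heZ z) _ (heZ z')) with h1 | h1
  · exact Or.inl (planes_of_comap c e h1)
  · exact Or.inr ⟨e, h1⟩

end Pool.Agent.Helper29.TR
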