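import Pool.Agent.Helper29.TR.Defs

set_option autoImplicit false

/-!
The case of a one-dimensional splitting summand.
-/

namespace Pool.Agent.Helper29.TR

open MvPolynomial Module Pool.Agent.Helper16

/-- a one-dimensional summand gives an Eckardt point -/
theorem eck_of_dim1 {c : Cub (I6 → ℂ)} {K V' : Submodule ℂ (I6 → ℂ)} (hP : c.Iso P0)
    (hKV : IsCompl K V') (hK : K ≤ P0) (hK1 : finrank ℂ K = 1)
    (h : ∀ u ∈ K, ∀ v ∈ V', ∀ w ∈ V', c.T u v w = 0) : ∃ p ∈ P0, IsEck c p := by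
  obtain ⟨⟨p, hp⟩, hp0, hspan⟩ := finrank_eq_one_iff'.mp hK1
  have hp0' : p ≠ 0 := fun h0 => hp0 (Subtype.ext h0)
  refine ⟨p, hK hp, hp0', fun v hv => ?_⟩
  have hv' : v ∈ K ⊔ V' := by rw [hKV.sup_eq_top]; exact Submodule.mem_top
  obtain ⟨u, hu, w, hw, rfl⟩ := Submodule.mem_sup.mp hv'
  obtain ⟨a, ha⟩ := hspan ⟨u, hu⟩
  have ha' : a • p = u := congrArg Subtype.val ha
  subst ha'
  have e1 : c.T p p p = 0 := hP _ (hK hp)
  have e2 : c.T p w w = 0 := h p hp w hw w hw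
  simp only [map_add, map_smul, smul_eq_mul, e1, mul_zero, zero_add] at hv
  simp only [map_add, map_smul, LinearMap.add_apply, LinearMap.smul_apply, smul_eq_mul, e1, e2, hv]
  rw [c.s23 p w p, hv]
  ring

end Pool.Agent.Helper29.TR
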