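import Mathlib
import Pool.Agent.Helper29.TR.Defs

set_option autoImplicit false

/-!
The case of a two-dimensional splitting summand: normal form or Eckardt point.
-/

namespace Pool.Agent.Helper29.TR

open MvPolynomial Module Pool.Agent.Helper16

/-- factorisation of a binary quadratic form -/
theorem binary_factor (α β γ : ℂ) (h : α ≠ 0 ∨ β ≠ 0 ∨ γ ≠ 0) :
    ∃ x1 y1 x2 y2 : ℂ, α = x1 * x2 ∧ β = x1 * y2 + x2 * y1 ∧ γ = y1 * y2 ∧
      (x1 ≠ 0 ∨ y1 ≠ 0) ∧ (x2 ≠ 0 ∨ y2 ≠ 0) := by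
  by_cases hα : α = 0
  · subst hα
    refine ⟨0, 1, β, γ, by ring, by ring, by ring, Or.inr one_ne_zero, ?_⟩
    rcases h with h | h | h
    · exact absurd rfl h
    · exact Or.inl h
    · exact Or.inr h
  · obtain ⟨r, hr⟩ := IsAlgClosed.exists_pow_nat_eq (β ^ 2 - 4 * α * γ) (n := 2) (by norm_num)
    refine ⟨α, (β + r) / 2, 1, (β - r) / (2 * α), by ring, ?_, ?_, Or.inl hα, Or.inl one_ne_zero⟩
    · field_simp; ring
    · field_simp
      linear_combination hr

/-- two vectors of the summand whose product vanishes on the complement -/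
theorem eck_of_prod {c : Cub (I6 → ℂ)} {K V' : Submodule ℂ (I6 → ℂ)} (hP : c.Iso P0)
    (hKV : IsCompl K V') (hK : K ≤ P0) {a b : I6 → ℂ} (haK : a ∈ K) (hbK : b ∈ K)
    (hspanK : ∀ u ∈ K, ∃ r s : ℂ, u = r • a + s • b)
    (hindK : ∀ r s : ℂ, r • a + s • b = 0 → r = 0 ∧ s = 0)
    (h : ∀ u ∈ K, ∀ v ∈ V', ∀ w ∈ V', c.T u v w = 0)
    {x1 y1 x2 y2 : ℂ} (h1 : x1 ≠ 0 ∨ y1 ≠ 0) (h2 : x2 ≠ 0 ∨ y2 ≠ 0)
    (h0 : ∀ v ∈ V', c.T (x1 • a + y1 • b) (x2 • a + y2 • b) v = 0) : ∃ p ∈ P0, IsEck c p := by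
  set u := x1 • a + y1 • b with hu
  set w := x2 • a + y2 • b with hw
  have huK : u ∈ K := K.add_mem (K.smul_mem _ haK) (K.smul_mem _ hbK)
  have hwK : w ∈ K := K.add_mem (K.smul_mem _ haK) (K.smul_mem _ hbK)
  have hu0 : u ≠ 0 := by
    intro h3
    have := hindK _ _ h3
    rcases h1 with h1 | h1
    · exact h1 this.1
    · exact h1 this.2
  have hdec : ∀ x : I6 → ℂ, ∃ k ∈ K, ∃ v ∈ V', x = k + v := by
    intro x
    have hx : x ∈ K ⊔ V' := by rw [hKV.sup_eq_top]; exact Submodule.mem_top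
    obtain ⟨k, hk, v, hv, e⟩ := Submodule.mem_sup.mp hx
    exact ⟨k, hk, v, hv, e.symm⟩
  by_cases hΔ : x1 * y2 - x2 * y1 = 0
  · exfalso
    obtain ⟨ρ, hρ⟩ : ∃ ρ : ℂ, w = ρ • u := by
      rcases h1 with h1 | h1
      · refine ⟨x2 / x1, ?_⟩
        rw [hu, hw, smul_add, smul_smul, smul_smul, div_mul_cancel₀ _ h1]
        congr 2
        field_simp
        linear_combination hΔ
      · refine ⟨y2 / y1, ?_⟩
        rw [hu, hw, smul_add, smul_smul, smul_smul, div_mul_cancel₀ _ h1]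
        congr 2
        field_simp
        linear_combination -hΔ
    have hρ0 : ρ ≠ 0 := by
      intro h3
      rw [h3, zero_smul] at hρ
      have := hindK _ _ hρ
      rcases h2 with h2 | h2
      · exact h2 this.1
      · exact h2 this.2
    obtain ⟨x, hx⟩ := c.ns u hu0
    apply hx
    obtain ⟨k, hk, v, hv, rfl⟩ := hdec x
    have e1 : c.T u u k = 0 := hP.two (hK huK) (hK hk)
    have e2 := h0 v hv
    rw [hρ] at e2
    simp only [map_smul, LinearMap.smul_apply, smul_eq_mul] at e2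
    rw [map_add, e1, zero_add]
    exact (mul_eq_zero.mp e2).resolve_left hρ0
  · refine ⟨u, hK huK, hu0, fun x hx => ?_⟩
    obtain ⟨k, hk, v, hv, rfl⟩ := hdec x
    have e1 : c.T u u k = 0 := hP.two (hK huK) (hK hk)
    rw [map_add, e1, zero_add] at hx
    obtain ⟨r, s, hrs⟩ := hspanK k hk
    obtain ⟨A, B, hA, hB⟩ : ∃ A B : ℂ, r = A * x1 + B * x2 ∧ s = A * y1 + B * y2 := by
      refine ⟨(r * y2 - s * x2) / (x1 * y2 - x2 * y1), (x1 * s - y1 * r) / (x1 * y2 - x2 * y1),
        ?_, ?_⟩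
      · rw [div_mul_eq_mul_div, div_mul_eq_mul_div, ← add_div, eq_div_iff hΔ]; ring
      · rw [div_mul_eq_mul_div, div_mul_eq_mul_div, ← add_div, eq_div_iff hΔ]; ring
    have hk' : k = A • u + B • w := by
      rw [hrs, hu, hw, hA, hB]
      module
    have e5 : c.T u k k = 0 := hP.three (hK huK) (hK hk) (hK hk)
    have e6 : c.T u k v = 0 := by
      rw [hk']
      simp only [map_add, map_smul, LinearMap.add_apply, LinearMap.smul_apply, smul_eq_mul]
      rw [hx, h0 v hv]; ring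
    have e7 : c.T u v v = 0 := h u huK v hv v hv
    simp only [map_add, LinearMap.add_apply]
    rw [e5, e6, e7, c.s23, e6]
    ring

/-- a two-dimensional summand gives an Eckardt point or the normal form -/
theorem cn_or_eck {c : Cub (I6 → ℂ)} {K V' : Submodule ℂ (I6 → ℂ)} (hP : c.Iso P0)
    (hKV : IsCompl K V') (hK : K ≤ P0) (hK2 : finrank ℂ K = 2)
    (h : ∀ u ∈ K, ∀ v ∈ V', ∀ w ∈ V', c.T u v w = 0) :
    (∃ p ∈ P0, IsEck c p) ∨ ∃ e : (I6 → ℂ) ≃ₗ[ℂ] (I6 → ℂ), CN (c.comap e) := by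
  classical
  -- a basis of `K`
  let bK : Basis (Fin 2) ℂ K := finBasisOfFinrankEq ℂ K hK2
  set a : I6 → ℂ := ((bK 0 : K) : I6 → ℂ) with ha
  set b : I6 → ℂ := ((bK 1 : K) : I6 → ℂ) with hb
  have haK : a ∈ K := (bK 0).2
  have hbK : b ∈ K := (bK 1).2
  have hspanK : ∀ u ∈ K, ∃ r s : ℂ, u = r • a + s • b := by
    intro u hu
    refine ⟨bK.repr ⟨u, hu⟩ 0, bK.repr ⟨u, hu⟩ 1, ?_⟩
    have h1 := congrArg Subtype.val (bK.sum_repr ⟨u, hu⟩)
    rw [Fin.sum_univ_two] at h1
    exact h1.symm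
  have hindK : ∀ r s : ℂ, r • a + s • b = 0 → r = 0 ∧ s = 0 := by
    intro r s hrs
    have h1 : r • bK 0 + s • bK 1 = 0 := Subtype.ext hrs
    have h2 := congrArg bK.repr h1
    rw [map_add, map_smul, map_smul, bK.repr_self, bK.repr_self, map_zero] at h2
    constructor
    · have := DFunLike.congr_fun h2 0
      simpa using this
    · have := DFunLike.congr_fun h2 1
      simpa using this
  have hV4 : finrank ℂ V' = 4 := by
    have h1 := Submodule.finrank_add_eq_of_isCompl hKV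
    rw [finrank_I6] at h1; omega
  -- the vector of `V'` in the base plane
  have hdim : 0 < finrank ℂ (V' ⊓ P0 : Submodule ℂ (I6 → ℂ)) := by
    have h1 := Submodule.finrank_sup_add_finrank_inf_eq V' P0
    have h2 := Submodule.finrank_le (V' ⊔ P0)
    rw [finrank_I6] at h2
    rw [hV4, finrank_P0] at h1
    omega
  obtain ⟨⟨d, hdV, hdP⟩, hd0⟩ := finrank_pos_iff_exists_ne_zero.mp hdim
  have hd0' : d ≠ 0 := fun h0 => hd0 (Subtype.ext h0)
  -- the three linear forms
  let L : V' →ₗ[ℂ] (Fin 3 → ℂ) := LinearMap.pi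
    ![(c.T b b).comp V'.subtype, -(c.T a b).comp V'.subtype, (c.T a a).comp V'.subtype]
  have hL0 : ∀ v : V', L v 0 = c.T b b v := fun v => rfl
  have hL1 : ∀ v : V', L v 1 = - c.T a b v := fun v => rfl
  have hL2 : ∀ v : V', L v 2 = c.T a a v := fun v => rfl
  by_cases hsurj : LinearMap.range L = ⊤
  · right
    rw [LinearMap.range_eq_top] at hsurj
    choose g hg using fun i : Fin 3 => hsurj (Pi.single i 1)
    have hLd : L ⟨d, hdV⟩ = 0 := by
      funext i
      fin_cases i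
      · exact hP.two (hK hbK) hdP
      · change - c.T a b d = 0
        rw [hP.three (hK haK) (hK hbK) hdP, neg_zero]
      · exact hP.two (hK haK) hdP
    let Φ : (I6 → ℂ) →ₗ[ℂ] (I6 → ℂ) :=
      (LinearMap.proj (.inl 0)).smulRight a + (LinearMap.proj (.inl 1)).smulRight b +
      ((LinearMap.proj (.inl 2)).smulRight d +
        ∑ i : Fin 3, (LinearMap.proj (.inr i)).smulRight (g i : I6 → ℂ))
    have hΦ : ∀ x, Φ x = (x (.inl 0) • a + x (.inl 1) • b) +
        (x (.inl 2) • d + ∑ i : Fin 3, x (.inr i) • (g i : I6 → ℂ)) := by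
      intro x
      simp [Φ, LinearMap.sum_apply]
    -- the part in `V'`
    have hLv : ∀ x : I6 → ℂ, ∃ v : V', (v : I6 → ℂ) =
        x (.inl 2) • d + ∑ i : Fin 3, x (.inr i) • (g i : I6 → ℂ) ∧ ∀ i, L v i = x (.inr i) := by
      intro x
      refine ⟨x (.inl 2) • ⟨d, hdV⟩ + ∑ i : Fin 3, x (.inr i) • g i, ?_, ?_⟩
      · simp
      · intro i
        rw [map_add, map_smul, hLd, smul_zero, zero_add, map_sum]
        simp only [map_smul, hg, Finset.sum_apply, Pi.smul_apply, smul_eq_mul, Pi.single_apply]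
        simp
    have hpart : ∀ x : I6 → ℂ, x (.inl 0) • a + x (.inl 1) • b ∈ K := fun x =>
      K.add_mem (K.smul_mem _ haK) (K.smul_mem _ hbK)
    have hinj : Function.Injective Φ := by
      rw [injective_iff_map_eq_zero]
      intro x hx
      obtain ⟨v, hv, hvL⟩ := hLv x
      rw [hΦ, ← hv] at hx
      have h1 : x (.inl 0) • a + x (.inl 1) • b ∈ K ⊓ V' := by
        refine ⟨hpart x, ?_⟩
        have : x (.inl 0) • a + x (.inl 1) • b = -(v : I6 → ℂ) := by
          rw [← sub_eq_zero, sub_neg_eq_add]; exact hx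
        rw [this]; exact V'.neg_mem v.2
      rw [hKV.inf_eq_bot, Submodule.mem_bot] at h1
      rw [h1, zero_add] at hx
      obtain ⟨e0, e1⟩ := hindK _ _ h1
      have hv0 : v = 0 := Subtype.ext hx
      have e2 : ∀ i, x (.inr i) = 0 := by
        intro i
        rw [← hvL, hv0, map_zero]; rfl
      have e3 : x (.inl 2) • d = 0 := by
        have : (v : I6 → ℂ) = x (.inl 2) • d := by
          rw [hv]; simp [e2]
        rw [← this, hv0]; rfl
      have e4 : x (.inl 2) = 0 := (smul_eq_zero.mp e3).resolve_right hd0'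
      funext i
      rcases i with i | i
      · fin_cases i
        · exact e0
        · exact e1
        · exact e4
      · exact e2 i
    let e : (I6 → ℂ) ≃ₗ[ℂ] (I6 → ℂ) := LinearEquiv.ofInjectiveEndo Φ hinj
    have he : ∀ x, e x = Φ x := fun x => rfl
    have hea : e (E (.inl 0)) = a := by
      rw [he, hΦ]; simp [E]
    have heb : e (E (.inl 1)) = b := by
      rw [he, hΦ]; simp [E]
    have hTK : ∀ p ∈ K, ∀ q ∈ K, ∀ x : I6 → ℂ, ∀ v : V', (v : I6 → ℂ) =
        x (.inl 2) • d + ∑ i : Fin 3, x (.inr i) • (g i : I6 → ℂ) →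
        c.T p q (e x) = c.T p q v := by
      intro p hp q hq x v hv
      rw [he, hΦ, ← hv, map_add, hP.three (hK hp) (hK hq) (hK (hpart x)), zero_add]
    have hV : ∀ u : I6 → ℂ, u (.inl 0) = 0 → u (.inl 1) = 0 → e u ∈ V' := by
      intro u h0 h1
      obtain ⟨v, hv, -⟩ := hLv u
      rw [he, hΦ, ← hv, h0, h1]
      simp
    refine ⟨e, ⟨?_, ?_, ?_, ?_, ?_, ?_⟩⟩
    · intro x hx
      rw [Cub.comap_apply]
      apply hP
      have hxz : ∀ i, x (.inr i) = 0 := by
        intro i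
        have := congrFun (mem_P0.mp hx) i
        simpa using this
      rw [he, hΦ]
      simp only [hxz, zero_smul, Finset.sum_const_zero, add_zero]
      exact P0.add_mem (hK (hpart x)) (P0.smul_mem _ hdP)
    · intro x
      obtain ⟨v, hv, hvL⟩ := hLv x
      rw [Cub.comap_apply, hea, hTK a haK a haK x v hv, ← hL2, hvL]
    · intro x
      obtain ⟨v, hv, hvL⟩ := hLv x
      rw [Cub.comap_apply, hea, heb, hTK a haK b hbK x v hv, ← hvL 1, hL1, neg_neg]
    · intro x
      obtain ⟨v, hv, hvL⟩ := hLv x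
      rw [Cub.comap_apply, heb, hTK b hbK b hbK x v hv, ← hL0, hvL]
    · intro u v hu0 hu1 hv0 hv1
      rw [Cub.comap_apply, hea]
      exact h a haK _ (hV u hu0 hu1) _ (hV v hv0 hv1)
    · intro u v hu0 hu1 hv0 hv1
      rw [Cub.comap_apply, heb]
      exact h b hbK _ (hV u hu0 hu1) _ (hV v hv0 hv1)
  · left
    have hlt : LinearMap.range L < ⊤ := lt_top_iff_ne_top.mpr hsurj
    obtain ⟨f, hf0, hf⟩ := Submodule.exists_le_ker_of_lt_top _ hlt
    have hfz : ∀ z : Fin 3 → ℂ, f z = ∑ i, z i * f (Pi.single i 1) := by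
      intro z
      have hz : z = ∑ k, z k • (Pi.single k 1 : Fin 3 → ℂ) := by
        funext i
        simp [Finset.sum_apply, Pi.single_apply]
      conv_lhs => rw [hz]
      rw [map_sum]
      simp only [map_smul, smul_eq_mul]
    have hne : f (Pi.single 2 1) ≠ 0 ∨ -f (Pi.single 1 1) ≠ 0 ∨ f (Pi.single 0 1) ≠ 0 := by
      by_contra hcon
      push Not at hcon
      apply hf0
      refine LinearMap.ext fun z => ?_
      rw [hfz, Fin.sum_univ_three, hcon.1, neg_eq_zero.mp hcon.2.1, hcon.2.2]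
      simp
    obtain ⟨x1, y1, x2, y2, e1, e2, e3, h1, h2⟩ := binary_factor _ _ _ hne
    refine eck_of_prod hP hKV hK haK hbK hspanK hindK h h1 h2 fun v hv => ?_
    have h3 : f (L ⟨v, hv⟩) = 0 := hf (LinearMap.mem_range_self L _)
    rw [hfz, Fin.sum_univ_three, hL0, hL1, hL2] at h3
    simp only [map_add, map_smul, LinearMap.add_apply, LinearMap.smul_apply, smul_eq_mul] at h3 ⊢
    rw [c.s12 b a v]
    linear_combination h3 - c.T a a v * e1 - c.T a b v * e2 - c.T b b v * e3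

end Pool.Agent.Helper29.TR
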