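import Mathlib
import Pool.Agent.Helper29.TR.Dim1
import Pool.Agent.Helper29.TR.Dim2b
import Pool.Agent.Helper29.TR.Dim3
import Pool.Agent.Helper16.CubicSplit
import Pool.Agent.Helper29.TR.Dim2a

set_option autoImplicit false

/-!
Cubic fourfolds with a plane and reducible discriminant.
-/

namespace Pool.Agent.Helper29.TR

open MvPolynomial Module Pool.Agent.Helper16

/-- The main statement: if the discriminant of the projection from the base plane is reducible then
there is an Eckardt point on the base plane, or there are two disjoint planes, or the cubic is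
rational. -/
theorem reducible_main {c : Cub (I6 → ℂ)} (hP : c.Iso P0) (hred : ¬ Irreducible c.disc) :
    (∃ p ∈ P0, p ≠ 0 ∧ ∀ v, c.T p p v = 0 → c.T p v v = 0) ∨
    (∃ A B : Submodule ℂ (I6 → ℂ), c.Pl A ∧ c.Pl B ∧ A ⊓ B = ⊥) ∨
    ∃ e : (I6 → ℂ) ≃ₗ[ℂ] (I6 → ℂ), (c.comap e).Rat4 := by
  obtain ⟨K, V', hKV, hK, hK0, h⟩ := Cub.split hP hred
  have h1 : finrank ℂ K ≤ 3 := by
    have := Submodule.finrank_mono hK
    rwa [finrank_P0] at this
  have h0 : finrank ℂ K ≠ 0 := fun h2 => hK0 (Submodule.finrank_eq_zero.mp h2)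
  have hcases : finrank ℂ K = 1 ∨ finrank ℂ K = 2 ∨ finrank ℂ K = 3 := by omega
  rcases hcases with hd | hd | hd
  · exact Or.inl (eck_of_dim1 hP hKV hK hd h)
  · rcases cn_or_eck hP hKV hK hd h with h2 | ⟨e, h2⟩
    · exact Or.inl h2
    · right; right
      obtain ⟨e', h3⟩ := rat4_of_CN h2
      exact ⟨e'.trans e, h3⟩
  · exact Or.inr (rat_of_dim3 hP hKV hK hd h)

end Pool.Agent.Helper29.TR
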